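import Mathlib

set_option autoImplicit false

namespace Pool.Agent.V11304.EvenDelay

/-- `X` is a positive solution of `x_{n+1} = 1 / (B_n x_n + x_{n-l})`, with the index shifted by
`l`: `X n` stands for `x_{n-l}`, so `X 0, ..., X l > 0` are the initial values and
`X (n + l + 1) = 1 / (B n * X (n + l) + X n)` for all `n ≥ 0`. -/
def IsSol (l : ℕ) (B X : ℕ → ℝ) : Prop :=
  (∀ n, 0 < X n) ∧ ∀ n, X (n + l + 1) = 1 / (B n * X (n + l) + X n)

/-- `X` is bounded. -/
def Bdd (X : ℕ → ℝ) : Prop := ∃ M : ℝ, ∀ n, X n ≤ M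

/-- comparison principle for even delay -/
lemma compare {l : ℕ} (hl : Even l) {B X Y : ℕ → ℝ} (hB : ∀ n, 0 ≤ B n)
    (hX : IsSol l B X) (hY : IsSol l B Y) (c : ℝ)
    (h0 : ∀ n ≤ l, (Even n → X n ≤ c * Y n) ∧ (¬ Even n → Y n ≤ c * X n)) :
    ∀ n, (Even n → X n ≤ c * Y n) ∧ (¬ Even n → Y n ≤ c * X n) := by
  intro n
  induction n using Nat.strong_induction_on with
  | _ n ih =>
    rcases Nat.lt_or_ge l n with hn | hn
    · obtain ⟨m, rfl⟩ : ∃ m, n = m + l + 1 := ⟨n - l - 1, by omega⟩
      have h1 := ih (m + l) (by omega)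
      have h2 := ih m (by omega)
      have hp : Even (m + l) ↔ Even m := by
        rw [Nat.even_add]; tauto
      rw [hp] at h1
      have dX : 0 < B m * X (m + l) + X m :=
        add_pos_of_nonneg_of_pos (mul_nonneg (hB m) (hX.1 _).le) (hX.1 m)
      have dY : 0 < B m * Y (m + l) + Y m :=
        add_pos_of_nonneg_of_pos (mul_nonneg (hB m) (hY.1 _).le) (hY.1 m)
      constructor
      · intro he
        have hm : ¬ Even m := by
          intro h
          have : Even (m + l) := hp.mpr h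
          rw [Nat.even_add_one] at he
          exact he this
        have a1 := h1.2 hm
        have a2 := h2.2 hm
        rw [hX.2, hY.2, mul_one_div, div_le_div_iff₀ dX dY]
        have := mul_le_mul_of_nonneg_left a1 (hB m)
        nlinarith
      · intro he
        have hm : Even m := by
          by_contra h
          apply he
          rw [Nat.even_add_one, hp]
          exact h
        have a1 := h1.1 hm
        have a2 := h2.1 hm
        rw [hX.2, hY.2, mul_one_div, div_le_div_iff₀ dY dX]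
        have := mul_le_mul_of_nonneg_left a1 (hB m)
        nlinarith
    · exact h0 n hn

/-- a bounded solution is bounded away from zero -/
lemma lower {l : ℕ} {B X : ℕ → ℝ} (hB : ∀ n, 0 ≤ B n) (b : ℝ) (hb : ∀ n, B n ≤ b)
    (hX : IsSol l B X) (h : Bdd X) : ∃ c : ℝ, 0 < c ∧ ∀ n, c ≤ X n := by
  obtain ⟨M, hM⟩ := h
  have hM0 : 0 < M := lt_of_lt_of_le (hX.1 0) (hM 0)
  have hb0 : 0 ≤ b := (hB 0).trans (hb 0)
  obtain ⟨i, hi, hmin⟩ := Finset.exists_min_image (Finset.range (l + 1)) X ⟨0, by simp⟩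
  refine ⟨min (X i) (1 / (b * M + M)), lt_min (hX.1 i) (by positivity), ?_⟩
  intro n
  rcases Nat.lt_or_ge l n with hn | hn
  · obtain ⟨m, rfl⟩ : ∃ m, n = m + l + 1 := ⟨n - l - 1, by omega⟩
    refine (min_le_right _ _).trans ?_
    rw [hX.2]
    apply one_div_le_one_div_of_le
    · exact add_pos_of_nonneg_of_pos (mul_nonneg (hB m) (hX.1 _).le) (hX.1 m)
    · exact add_le_add (mul_le_mul (hb m) (hM _) (hX.1 _).le hb0) (hM m)
  · exact (min_le_left _ _).trans (hmin n (Finset.mem_range.mpr (by omega)))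

/-- **Dichotomy** for even delay -/
lemma dichotomy {l : ℕ} (hl : Even l) {B X Y : ℕ → ℝ} (hB : ∀ n, 0 ≤ B n) (b : ℝ)
    (hb : ∀ n, B n ≤ b) (hX : IsSol l B X) (hY : IsSol l B Y) (h : Bdd Y) : Bdd X := by
  obtain ⟨δ, hδ, hlow⟩ := lower hB b hb hY h
  obtain ⟨M, hM⟩ := h
  have hM0 : 0 < M := lt_of_lt_of_le (hY.1 0) (hM 0)
  -- choose the comparison constant on the initial window
  obtain ⟨i, hi, hmax⟩ := Finset.exists_max_image (Finset.range (l + 1))
    (fun n => max (X n / Y n) (Y n / X n)) ⟨0, by simp⟩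
  set c := max (X i / Y i) (Y i / X i) with hcdef
  have hc : 0 < c := lt_max_of_lt_left (div_pos (hX.1 i) (hY.1 i))
  have h1 := compare hl hB hX hY c (by
    intro n hn
    have := hmax n (Finset.mem_range.mpr (by omega))
    refine ⟨fun _ => ?_, fun _ => ?_⟩
    · rw [← div_le_iff₀ (hY.1 n)]; exact (le_max_left _ _).trans this
    · rw [← div_le_iff₀ (hX.1 n)]; exact (le_max_right _ _).trans this)
  have h2 := compare hl hB hY hX c (by
    intro n hn
    have := hmax n (Finset.mem_range.mpr (by omega))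
    refine ⟨fun _ => ?_, fun _ => ?_⟩
    · rw [← div_le_iff₀ (hX.1 n)]; exact (le_max_right _ _).trans this
    · rw [← div_le_iff₀ (hY.1 n)]; exact (le_max_left _ _).trans this)
  refine ⟨c * M, ?_⟩
  intro n
  by_cases he : Even n
  · exact ((h1 n).1 he).trans (mul_le_mul_of_nonneg_left (hM n) hc.le)
  · exact ((h2 n).2 he).trans (mul_le_mul_of_nonneg_left (hM n) hc.le)

/-- parity-separated coefficients: geometric growth -/
lemma growth {l : ℕ} (hl : Even l) {B X : ℕ → ℝ} (hB : ∀ n, 0 ≤ B n) (b0 b1 : ℝ)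
    (hb1 : 0 ≤ b1) (hlt : b1 < b0) (he : ∀ n, Even n → b0 ≤ B n) (ho : ∀ n, ¬ Even n → B n ≤ b1)
    (hX : IsSol l B X) : ¬ Bdd X := by
  -- choose s > 1
  obtain ⟨s, hs1, hs⟩ : ∃ s : ℝ, 1 < s ∧ s * (b1 + s ^ l) * s ≤ b0 + 1 / s ^ l := by
    have hcont : ContinuousAt (fun s : ℝ => b0 + 1 / s ^ l - s * (b1 + s ^ l) * s) 1 := by
      apply ContinuousAt.sub
      · apply ContinuousAt.add continuousAt_const
        apply ContinuousAt.div continuousAt_const (by fun_prop) (by simp)
      · fun_prop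
    have hpos : 0 < b0 + 1 / (1 : ℝ) ^ l - 1 * (b1 + 1 ^ l) * 1 := by
      simp only [one_pow]; linarith
    have hev := hcont.eventually (lt_mem_nhds hpos)
    have hev2 : ∀ᶠ s in nhdsWithin (1 : ℝ) (Set.Ioi 1),
        0 < b0 + 1 / s ^ l - s * (b1 + s ^ l) * s := hev.filter_mono nhdsWithin_le_nhds
    obtain ⟨s, h1, h2⟩ := (hev2.and self_mem_nhdsWithin).exists
    exact ⟨s, h2, by linarith⟩
  have hs0 : 0 < s := by linarith
  set κ := s * (b1 + s ^ l) with hκ
  have hκ0 : 0 < κ := by positivity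
  -- initial constant
  obtain ⟨a, ha0, ha⟩ : ∃ a : ℝ, 0 < a ∧ ∀ n ≤ l, (Even n → a * s ^ n ≤ X n) ∧
      (¬ Even n → X n * (a * κ * s ^ n) ≤ 1) := by
    obtain ⟨i, hi, hmax⟩ := Finset.exists_max_image (Finset.range (l + 1))
      (fun n => max (s ^ n / X n) (X n * (κ * s ^ n))) ⟨0, by simp⟩
    set D := max (s ^ i / X i) (X i * (κ * s ^ i)) with hD
    have hD0 : 0 < D := lt_max_of_lt_left (div_pos (pow_pos hs0 i) (hX.1 i))
    refine ⟨1 / D, by positivity, ?_⟩
    intro n hn
    have h1 := hmax n (Finset.mem_range.mpr (by omega))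
    refine ⟨fun _ => ?_, fun _ => ?_⟩
    · have h2 := (le_max_left _ _).trans h1
      rw [div_le_iff₀ (hX.1 n)] at h2
      rw [one_div, inv_mul_le_iff₀ hD0]
      exact h2
    · have h2 := (le_max_right _ _).trans h1
      have : X n * (1 / D * κ * s ^ n) = (X n * (κ * s ^ n)) / D := by ring
      rw [this, div_le_one hD0]
      exact h2
  have key : ∀ n, (Even n → a * s ^ n ≤ X n) ∧ (¬ Even n → X n * (a * κ * s ^ n) ≤ 1) := by
    intro n
    induction n using Nat.strong_induction_on with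
    | _ n ih =>
      rcases Nat.lt_or_ge l n with hn | hn
      · obtain ⟨m, rfl⟩ : ∃ m, n = m + l + 1 := ⟨n - l - 1, by omega⟩
        have h1 := ih (m + l) (by omega)
        have h2 := ih m (by omega)
        have hp : Even (m + l) ↔ Even m := by
          rw [Nat.even_add]; tauto
        rw [hp] at h1
        have dX : 0 < B m * X (m + l) + X m :=
          add_pos_of_nonneg_of_pos (mul_nonneg (hB m) (hX.1 _).le) (hX.1 m)
        have psm : 0 < s ^ m := pow_pos hs0 m
        have psl : 0 < s ^ l := pow_pos hs0 l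
        constructor
        · intro hev
          have hm : ¬ Even m := by
            intro h
            have : Even (m + l) := hp.mpr h
            rw [Nat.even_add_one] at hev
            exact hev this
          have a1 := h1.2 hm
          have a2 := h2.2 hm
          rw [hX.2, le_div_iff₀ dX]
          -- a s^(m+l+1) (B X + X) ≤ 1
          have e1 : B m * (X (m + l) * (a * κ * s ^ (m + l))) ≤ b1 * 1 :=
            mul_le_mul (ho m hm) a1 (mul_nonneg (hX.1 _).le (by positivity)) hb1
          have e2 : a * s ^ (m + l + 1) * (B m * X (m + l) + X m) * κ =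
              s * (B m * (X (m + l) * (a * κ * s ^ (m + l)))) +
                s * s ^ l * (X m * (a * κ * s ^ m)) := by ring
          have e3 : a * s ^ (m + l + 1) * (B m * X (m + l) + X m) * κ ≤ 1 * κ := by
            rw [e2, hκ]
            have f1 : s * (B m * (X (m + l) * (a * κ * s ^ (m + l)))) ≤ s * (b1 * 1) :=
              mul_le_mul_of_nonneg_left e1 hs0.le
            have f2 : s * s ^ l * (X m * (a * κ * s ^ m)) ≤ s * s ^ l * 1 :=
              mul_le_mul_of_nonneg_left a2 (by positivity)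
            rw [hκ] at f1 f2
            linarith
          exact le_of_mul_le_mul_right e3 hκ0
        · intro hev
          have hm : Even m := by
            by_contra h
            apply hev
            rw [Nat.even_add_one, hp]
            exact h
          have a1 := h1.1 hm
          have a2 := h2.1 hm
          rw [hX.2, one_div, inv_mul_le_iff₀ dX, mul_one]
          -- a κ s^(m+l+1) ≤ B X + X
          have g1 : b0 * (a * s ^ (m + l)) ≤ B m * X (m + l) :=
            mul_le_mul (he m hm) a1 (by positivity) (hB m)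
          have g2 : a * κ * s ^ (m + l + 1) = (κ * s) * (a * s ^ (m + l)) := by ring
          have g3 : (κ * s) * (a * s ^ (m + l)) ≤ (b0 + 1 / s ^ l) * (a * s ^ (m + l)) :=
            mul_le_mul_of_nonneg_right hs (by positivity)
          have g4 : (b0 + 1 / s ^ l) * (a * s ^ (m + l)) = b0 * (a * s ^ (m + l)) + a * s ^ m := by
            rw [pow_add]
            field_simp
          rw [g2]
          linarith
      · exact ha n hn
  rintro ⟨M, hM⟩
  obtain ⟨j, hj⟩ := pow_unbounded_of_one_lt (M / a) hs1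
  have h1 := (key (2 * j)).1 (even_two_mul j)
  have h2 := hM (2 * j)
  rw [div_lt_iff₀ ha0] at hj
  have h3 : s ^ j ≤ s ^ (2 * j) := pow_le_pow_right₀ hs1.le (by omega)
  have h4 : a * s ^ j ≤ a * s ^ (2 * j) := mul_le_mul_of_nonneg_left h3 ha0.le
  linarith

lemma shift {l : ℕ} {B X : ℕ → ℝ} (hX : IsSol l B X) :
    IsSol l (fun n => B (n + 1)) (fun n => X (n + 1)) := by
  refine ⟨fun n => hX.1 _, fun n => ?_⟩
  show X (n + l + 1 + 1) = 1 / (B (n + 1) * X (n + l + 1) + X (n + 1))
  have := hX.2 (n + 1)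
  rw [show n + 1 + l + 1 = n + l + 1 + 1 by ring, show n + 1 + l = n + l + 1 by ring] at this
  exact this

lemma growth' {l : ℕ} (hl : Even l) {B X : ℕ → ℝ} (hB : ∀ n, 0 ≤ B n) (b0 b1 : ℝ)
    (hlt : b1 < b0)
    (h : ((∀ n, Even n → b0 ≤ B n) ∧ ∀ n, ¬ Even n → B n ≤ b1) ∨
      ((∀ n, ¬ Even n → b0 ≤ B n) ∧ ∀ n, Even n → B n ≤ b1))
    (hX : IsSol l B X) : ¬ Bdd X := by
  rcases h with ⟨h1, h2⟩ | ⟨h1, h2⟩
  · exact growth hl hB b0 b1 ((hB 1).trans (h2 1 (by decide))) hlt h1 h2 hX
  · intro hb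
    obtain ⟨M, hM⟩ := hb
    refine growth hl (B := fun n => B (n + 1)) (X := fun n => X (n + 1)) (fun n => hB _) b0 b1
      ((hB 0).trans (h2 0 (by decide))) hlt ?_ ?_ (shift hX) ⟨M, fun n => hM _⟩
    · intro n hn
      exact h1 (n + 1) (by rw [Nat.even_add_one]; simpa using hn)
    · intro n hn
      exact h2 (n + 1) (by rw [Nat.even_add_one]; exact hn)

/-- odd delay, coefficients vanishing exactly on one parity class -/
lemma odd_bounded {l : ℕ} (hl : Odd l) {B X : ℕ → ℝ} (e : ℕ) (he : e < 2) (b : ℝ) (hb : 0 < b)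
    (hz : ∀ n, n % 2 = e → B n = 0) (hp : ∀ n, n % 2 ≠ e → b ≤ B n) (hX : IsSol l B X) :
    Bdd X := by
  obtain ⟨q, hq⟩ := hl
  obtain ⟨i, hi, hmin⟩ := Finset.exists_min_image (Finset.range (l + 1))
    (fun n => min (X n) (1 / X n)) ⟨0, by simp⟩
  obtain ⟨j, hj, hmax⟩ := Finset.exists_max_image (Finset.range (l + 1)) X ⟨0, by simp⟩
  set c := min (X i) (1 / X i) with hc
  have hc0 : 0 < c := lt_min (hX.1 i) (one_div_pos.mpr (hX.1 i))
  have key : ∀ n, n % 2 = e → c ≤ X n ∧ c ≤ 1 / X n := by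
    intro n
    induction n using Nat.strong_induction_on with
    | _ n ih =>
      intro hn
      rcases Nat.lt_or_ge l n with h | h
      · obtain ⟨m, rfl⟩ : ∃ m, n = m + l + 1 := ⟨n - l - 1, by omega⟩
        have hm : m % 2 = e := by omega
        have h1 := ih m (by omega) hm
        have h2 : X (m + l + 1) = 1 / X m := by
          rw [hX.2, hz m hm, zero_mul, zero_add]
        rw [h2, one_div_one_div]
        exact ⟨h1.2, h1.1⟩
      · have := hmin n (Finset.mem_range.mpr (by omega))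
        exact ⟨this.trans (min_le_left _ _), this.trans (min_le_right _ _)⟩
  refine ⟨max (X j) (max (1 / c) (1 / (b * c))), ?_⟩
  intro n
  rcases Nat.lt_or_ge l n with h | h
  · obtain ⟨m, rfl⟩ : ∃ m, n = m + l + 1 := ⟨n - l - 1, by omega⟩
    by_cases hm : m % 2 = e
    · refine le_trans ?_ ((le_max_left _ _).trans (le_max_right _ _))
      have h1 := (key (m + l + 1) (by omega)).2
      rw [le_div_iff₀ (hX.1 _)] at h1
      rw [le_div_iff₀ hc0]
      linarith
    · refine le_trans ?_ ((le_max_right _ _).trans (le_max_right _ _))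
      have h1 := (key (m + l) (by omega)).1
      rw [hX.2]
      apply one_div_le_one_div_of_le (by positivity)
      have h2 := mul_le_mul (hp m hm) h1 hc0.le (hb.le.trans (hp m hm))
      have h3 := hX.1 m
      linarith
  · exact (hmax n (Finset.mem_range.mpr (by omega))).trans (le_max_left _ _)

lemma per2 {B : ℕ → ℝ} (h : ∀ n, B (n + 2) = B n) (n : ℕ) : B n = B (n % 2) := by
  induction n using Nat.strong_induction_on with
  | _ n ih =>
    rcases Nat.lt_or_ge n 2 with h1 | h1
    · rw [Nat.mod_eq_of_lt h1]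
    · obtain ⟨m, rfl⟩ : ∃ m, n = m + 2 := ⟨n - 2, by omega⟩
      rw [h, ih m (by omega)]
      congr 1
      omega

lemma per_bdd {B : ℕ → ℝ} (k : ℕ) (hk : 0 < k) (h : ∀ n, B (n + k) = B n) :
    ∃ b : ℝ, ∀ n, B n ≤ b := by
  obtain ⟨i, hi, hmax⟩ := Finset.exists_max_image (Finset.range k) B ⟨0, by simpa using hk⟩
  refine ⟨B i, ?_⟩
  intro n
  induction n using Nat.strong_induction_on with
  | _ n ih =>
    rcases Nat.lt_or_ge n k with h1 | h1
    · exact hmax n (Finset.mem_range.mpr h1)
    · obtain ⟨m, rfl⟩ : ∃ m, n = m + k := ⟨n - k, by omega⟩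
      rw [h]
      exact ih m (by omega)

lemma per_low {B : ℕ → ℝ} (k : ℕ) (hk : 0 < k) (h : ∀ n, B (n + k) = B n) (e : ℕ) (he : e < 2)
    (hpos : ∀ n, n % 2 ≠ e → 0 < B n) : ∃ b : ℝ, 0 < b ∧ ∀ n, n % 2 ≠ e → b ≤ B n := by
  obtain ⟨i, hi, hmin⟩ := Finset.exists_min_image
    ((Finset.range (2 * k)).filter (fun i => i % 2 ≠ e)) B (by
      refine ⟨1 - e, ?_⟩
      rw [Finset.mem_filter, Finset.mem_range]
      omega)
  rw [Finset.mem_filter] at hi
  refine ⟨B i, hpos i hi.2, ?_⟩
  have h2 : ∀ n, B (n + 2 * k) = B n := by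
    intro n
    rw [show n + 2 * k = n + k + k by ring, h, h]
  intro n
  induction n using Nat.strong_induction_on with
  | _ n ih =>
    intro hn
    rcases Nat.lt_or_ge n (2 * k) with h1 | h1
    · exact hmin n (by rw [Finset.mem_filter, Finset.mem_range]; exact ⟨h1, hn⟩)
    · obtain ⟨m, rfl⟩ : ∃ m, n = m + 2 * k := ⟨n - 2 * k, by omega⟩
      rw [h2]
      exact ih m (by omega) (by omega)

end Pool.Agent.V11304.EvenDelay
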